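import Pool.Agent.W560.EW.Stm

/-! Doubling for entrywise maps preserving real-rooted polynomials (part EW-DBL). -/

set_option autoImplicit false

open Polynomial

namespace Pool.Agent.W511.EW.Dbl

theorem dbl : Pool.Agent.W560.EW.S_DBL := by
  intro F hF hP a ha
  set p : ℝ[X] := C a + C (2 * a) * X + C a * X ^ 2 with hp
  have ha0 : a ≠ 0 := ha.ne'
  have hc0 : p.coeff 0 = a := by simp [hp]
  have hc1 : p.coeff 1 = 2 * a := by simp [hp, coeff_X]
  have hc2 : p.coeff 2 = a := by simp [hp, coeff_X, coeff_C]
  have hdeg : p.natDegree = 2 := by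
    have : p = C a * X ^ 2 + C (2 * a) * X + C a := by rw [hp]; ring
    rw [this]
    exact natDegree_quadratic ha0
  have hpos : ∀ k ≤ p.natDegree, 0 < p.coeff k := by
    intro k hk
    rw [hdeg] at hk
    interval_cases k
    · rw [hc0]; exact ha
    · rw [hc1]; positivity
    · rw [hc2]; exact ha
  have hRR : Pool.Agent.W560.EW.RR p := by
    intro z hz
    have h1 : (a : ℂ) * (1 + z) ^ 2 = 0 := by
      rw [← hz, hp]
      simp only [map_add, map_mul, aeval_C, aeval_X, map_pow, Complex.coe_algebraMap]
      push_cast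
      ring
    have h2 : (1 + z) ^ 2 = 0 := by
      rcases mul_eq_zero.1 h1 with h | h
      · exact absurd (by exact_mod_cast h) ha0
      · exact h
    have h3 : z = -1 := by
      have := pow_eq_zero_iff (two_ne_zero) |>.1 h2
      linear_combination this
    rw [h3]; simp
  have happ : Pool.Agent.W560.EW.app F p = C (F a) + C (F (2 * a)) * X + C (F a) * X ^ 2 := by
    unfold Pool.Agent.W560.EW.app
    rw [hdeg]
    simp only [Finset.sum_range_succ, Finset.sum_range_zero, zero_add, hc0, hc1, hc2]
    simp [← C_mul_X_pow_eq_monomial]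
  rcases hP p hpos hRR with h | h
  · have h0 : F a = 0 := by
      have h1 := congrArg (fun q : ℝ[X] => q.coeff 0) h
      rw [happ] at h1
      simpa using h1
    rw [h0, mul_zero]
    exact hF _
  · by_contra hcon
    push Not at hcon
    have hFa : 0 < F a := by
      have := hF (2 * a)
      linarith
    have hF2 := hF (2 * a)
    set A := F a with hA
    set B := F (2 * a) with hB
    have hdis : 0 < 4 * A ^ 2 - B ^ 2 := by nlinarith
    set r := Real.sqrt (4 * A ^ 2 - B ^ 2) with hr
    have hr0 : 0 < r := Real.sqrt_pos.2 hdis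
    have hrr : r ^ 2 = 4 * A ^ 2 - B ^ 2 := Real.sq_sqrt hdis.le
    have hrC : ((r : ℂ)) ^ 2 = 4 * (A : ℂ) ^ 2 - (B : ℂ) ^ 2 := by exact_mod_cast hrr
    have hAC : (A : ℂ) ≠ 0 := by exact_mod_cast hFa.ne'
    have h1 := h ((-(B : ℂ) + r * Complex.I) / (2 * A)) (by
      rw [happ]
      simp only [map_add, map_mul, aeval_C, aeval_X, map_pow, Complex.coe_algebraMap]
      field_simp
      have hI : Complex.I ^ 2 = -1 := Complex.I_sq
      linear_combination (r : ℂ) ^ 2 * hI - hrC)
    have h2 : ((-(B : ℂ) + r * Complex.I) / (2 * A)).im = r / (2 * A) := by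
      have h3 : ((-(B : ℂ) + r * Complex.I) / (2 * A)) =
          ((-B / (2 * A) : ℝ) : ℂ) + ((r / (2 * A) : ℝ) : ℂ) * Complex.I := by
        push_cast; field_simp
      rw [h3, Complex.add_im, Complex.ofReal_im, Complex.mul_I_im, Complex.ofReal_re, zero_add]
    rw [h2] at h1
    have h4 : 0 < r / (2 * A) := by positivity
    linarith

end Pool.Agent.W511.EW.Dbl
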